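import Pool.Agent.helper7.ZB.SpecT

/-!
# Project zb (MP_baa4d7_al): row ZTL

Normalisers of normal chains are local.
-/

set_option autoImplicit false

namespace Pool.Agent.ZB

open Pool.Agent.helper58.DC Pool.Agent.DI Pool.Agent.GR Pool.Agent.OB Pool.Agent.DR Pool.Agent.FI Pool.Agent.FI3 Pool.Agent.FI4
open Pool.Agent.FI4I Pool.Agent.LE Pool.Agent.L5 Pool.Agent.NAB

/-- A nonempty finite chain of subgroups has a largest term. -/
theorem ZTL_max {G : Type} [Group G] {C : Finset (Subgroup G)} (hc : IsChain (· ≤ ·) (C : Set (Subgroup G)))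
    (hne : C.Nonempty) : ∃ P ∈ C, ∀ Q ∈ C, Q ≤ P := by
  obtain ⟨P, hP⟩ := C.exists_maximal hne
  refine ⟨P, hP.1, fun Q hQ => ?_⟩
  by_cases h : P = Q
  · exact le_of_eq h.symm
  · rcases hc hP.1 hQ h with h1 | h1
    · exact hP.2 hQ h1
    · exact h1

theorem ZTL_cz_le_nz {G : Type} [Group G] {P P' : Subgroup G} (h : P' ≤ P) : cz P ≤ nz P' := by
  intro g hg
  have hg' : g ∈ Subgroup.centralizer (P' : Set G) := by
    rw [Subgroup.mem_centralizer_iff] at hg ⊢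
    intro x hx
    exact hg x (h hx)
  have h1 : Subgroup.centralizer (P' : Set G) ≤ Subgroup.normalizer (P' : Set G) :=
    Subgroup.centralizer_le_normalizer _
  exact h1 hg'

/-- **ZTL.** Normalisers of normal chains are local. -/
theorem ZTL (hCFA : CFA_stmt) (hNFV : NFV_stmt) (hCNTL : CNTL_stmt) : ZTL_stmt := by
  intro p M hS G _ _ R C hC φ hφ Q y hQ
  obtain ⟨P, hPC, hPmax⟩ := ZTL_max hC.ch.chain ⟨R, hC.ch.mem⟩
  have hPp : IsPGroup p P := hC.ch.pg P hPC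
  have hPn : P ≤ nrm C := by
    unfold nrm
    refine le_iInf₂ fun P' hP' => ?_
    exact hC.nm P' hP' P hPC (hPmax P' hP')
  have hnP : nrm C ≤ nz P := by
    unfold nrm
    exact iInf₂_le P hPC
  have hK : nrm C ⊓ cz P ≤ nrm C := inf_le_left
  have hKn : nrm C ≤ nz (nrm C ⊓ cz P) := by
    intro g hg
    rw [Subgroup.mem_normalizer_iff]
    have key : ∀ g' ∈ nrm C, ∀ x ∈ nrm C ⊓ cz P, g' * x * g'⁻¹ ∈ nrm C ⊓ cz P := by
      intro g' hg' x hx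
      exact ⟨(nrm C).mul_mem ((nrm C).mul_mem hg' hx.1) ((nrm C).inv_mem hg'), cz_conj (hnP hg') hx.2⟩
    intro x
    refine ⟨fun hx => key g hg x hx, fun hx => ?_⟩
    have h1 := key g⁻¹ ((nrm C).inv_mem hg) _ hx
    have h2 : g⁻¹ * (g * x * g⁻¹) * g⁻¹⁻¹ = x := by group
    rwa [h2] at h1
  obtain ⟨ψ₀, hψ₀, n, hn, hO⟩ := (hCFA G (nrm C ⊓ cz P) (nrm C) hK hKn).1 φ hφ
  have hSB : SB M (nrm C) φ ψ₀ := hNFV p M hS G P (nrm C) hPp hPn hnP φ hφ ψ₀ hψ₀ n hn hO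
  obtain ⟨l, hl, hlQ⟩ := hCNTL p M hS G (nrm C) P hPp hPn ψ₀ hψ₀ φ hSB.symm Q y hQ
  have hPQ : P ≤ Q := by
    intro r hr
    have hl' : l⁻¹ ∈ nz P := (nz P).inv_mem (hnP hl)
    have h1 : l⁻¹ * r * l⁻¹⁻¹ ∈ P := (Subgroup.mem_normalizer_iff.1 hl' r).1 hr
    have h2 := hlQ _ h1
    have h3 : l * (l⁻¹ * r * l⁻¹⁻¹) * l⁻¹ = r := by group
    rwa [h3] at h2
  intro g hg
  have hgP : g ∈ cz P := by
    rw [Subgroup.mem_centralizer_iff] at hg ⊢
    intro x hx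
    exact hg x (hPQ hx)
  unfold nrm
  rw [Subgroup.mem_iInf]
  intro P'
  rw [Subgroup.mem_iInf]
  intro hP'
  exact ZTL_cz_le_nz (hPmax P' hP') hgP

end Pool.Agent.ZB
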